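import Pool.Agent.K3h16.MI.Stm
import Pool.Agent.HopfPinch.AnS1

/-! Brick HOL (project MI of helper16): holomorphy of the parametric integral. -/

set_option autoImplicit false

open MeasureTheory Set Filter Topology
open scoped ContDiff

namespace Pool.Agent.K3h24.MI

open Pool.Agent.K3h16.MI

theorem isCompact_Ann (m : ℕ) : IsCompact (Ann m) := by
  apply Metric.isCompact_of_isClosed_isBounded
  · exact (isClosed_le continuous_const continuous_norm).inter
      (isClosed_le continuous_norm continuous_const)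
  · refine (Metric.isBounded_closedBall (x := (0 : E m)) (r := Real.exp 1)).subset ?_
    intro θ hθ
    rw [mem_closedBall_zero_iff]
    exact hθ.2

/-- the set where the integrand is used -/
def SS (m : ℕ) : Set (E m × E m × ℝ) := {a | a.2.1 ∈ Ann m ∧ 0 < a.2.2}

theorem measurableSet_SS (m : ℕ) : MeasurableSet (SS m) := by
  have h1 : MeasurableSet (Ann m) := (isCompact_Ann m).isClosed.measurableSet
  exact ((measurable_fst.comp measurable_snd) h1).inter
    (measurableSet_lt measurable_const (measurable_snd.comp measurable_snd))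

/-- the integrand, cut off -/
noncomputable def Ph (m : ℕ) (g : ℂ → E m → E m → ℝ → ℂ) (a : E m × E m × ℝ) (z : ℂ) : ℂ :=
  (SS m).indicator (fun a => (a.2.2 : ℂ) ^ (z + 2 * m) * g z a.1 a.2.1 a.2.2) a

theorem ne_zero_of_Ann {m : ℕ} {θ : E m} (h : θ ∈ Ann m) : θ ≠ 0 := by
  intro h0
  have := h.1
  rw [h0, norm_zero] at this
  linarith

theorem t_HOL : S_HOL := by
  intro m g R hg hgz hg0
  set R' : ℝ := max R 0 with hR'
  have hR0 : 0 ≤ R' := le_max_right _ _
  have hg0' : ∀ z u θ t, 1 ≤ ‖θ‖ → (R' < ‖u‖ ∨ R' < |t|) → g z u θ t = 0 := by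
    intro z u θ t hθ h
    exact hg0 z u θ t hθ (h.imp (lt_of_le_of_lt (le_max_left _ _))
      (lt_of_le_of_lt (le_max_left _ _)))
  intro z₀ hz₀
  simp only [mem_ofPred_eq] at hz₀
  -- a ball in the half plane
  obtain ⟨δ, hδ, hδz⟩ : ∃ δ : ℝ, 0 < δ ∧ -1 < z₀.re - δ + 2 * m :=
    ⟨(z₀.re + 2 * m + 1) / 2, by linarith, by linarith⟩
  set O : Set ℂ := Metric.ball z₀ δ with hO
  have hOo : IsOpen O := Metric.isOpen_ball
  have hre : ∀ z ∈ O, |z.re - z₀.re| < δ := by
    intro z hz
    rw [hO, Metric.mem_ball, dist_eq_norm] at hz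
    exact lt_of_le_of_lt (by simpa using Complex.abs_re_le_norm (z - z₀)) hz
  -- the bound of g
  set K : Set (ℂ × E m × E m × ℝ) :=
    Metric.closedBall z₀ δ ×ˢ (Metric.closedBall (0 : E m) R' ×ˢ (Ann m ×ˢ Icc (0 : ℝ) R')) with hK
  have hKc : IsCompact K := (isCompact_closedBall _ _).prod
    ((isCompact_closedBall _ _).prod ((isCompact_Ann m).prod isCompact_Icc))
  have hKs : K ⊆ {p : ℂ × E m × E m × ℝ | p.2.2.1 ≠ 0} := by
    rintro ⟨z, u, θ, t⟩ ⟨-, -, hθ, -⟩
    exact ne_zero_of_Ann hθ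
  obtain ⟨C, hC⟩ := hKc.exists_bound_of_continuousOn (hg.mono hKs)
  set C' : ℝ := max C 0 with hC'
  have hC0 : 0 ≤ C' := le_max_right _ _
  set μ : Measure (E m × E m × ℝ) :=
    (volume : Measure (E m)).prod ((volume.restrict (Ann m)).prod (volume.restrict (Ioi (0 : ℝ))))
    with hμ
  set a₀ : ℝ := z₀.re - δ + 2 * m with ha₀
  set b₀ : ℝ := z₀.re + δ + 2 * m with hb₀
  have hb₀1 : -1 < b₀ := by rw [hb₀]; linarith
  set f₁ : E m → ℝ := (Metric.closedBall (0 : E m) R').indicator (fun _ => C') with hf₁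
  set f₃ : ℝ → ℝ := (Ioc (0 : ℝ) R').indicator (fun t => t ^ a₀ + t ^ b₀) with hf₃
  set bd : E m × E m × ℝ → ℝ := fun a => f₁ a.1 * (1 * f₃ a.2.2) with hbd
  have hf₁0 : ∀ u, 0 ≤ f₁ u := fun u => indicator_nonneg (fun _ _ => hC0) u
  have hf₃0 : ∀ t, 0 ≤ f₃ t := fun t => indicator_nonneg (fun t ht =>
    add_nonneg (Real.rpow_nonneg ht.1.le _) (Real.rpow_nonneg ht.1.le _)) t
  have hint₁ : Integrable f₁ := by
    rw [hf₁, integrable_indicator_iff Metric.isClosed_closedBall.measurableSet]
    exact integrableOn_const (isCompact_closedBall _ _).measure_lt_top.ne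
  have hint₂ : Integrable (fun _ : E m => (1 : ℝ)) (volume.restrict (Ann m)) :=
    integrableOn_const (isCompact_Ann m).measure_lt_top.ne
  have hint₃ : Integrable f₃ (volume.restrict (Ioi (0 : ℝ))) := by
    apply Integrable.restrict
    rw [hf₃, integrable_indicator_iff measurableSet_Ioc]
    have h1 := (intervalIntegral.intervalIntegrable_rpow' (a := 0) (b := R') hδz)
    have h2 := (intervalIntegral.intervalIntegrable_rpow' (a := 0) (b := R') hb₀1)
    rw [intervalIntegrable_iff_integrableOn_Ioc_of_le hR0] at h1 h2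
    exact h1.add h2
  have hint : Integrable bd μ := hint₁.mul_prod (hint₂.mul_prod hint₃)
  -- pointwise bound
  have hle : ∀ a, ∀ z ∈ O, ‖Ph m g a z‖ ≤ bd a := by
    intro a z hz
    have hbd0 : 0 ≤ bd a := mul_nonneg (hf₁0 _) (mul_nonneg zero_le_one (hf₃0 _))
    by_cases ha : a ∈ SS m
    · rw [Ph, indicator_of_mem ha]
      obtain ⟨hθ, ht⟩ := ha
      by_cases hu : R' < ‖a.1‖ ∨ R' < |a.2.2|
      · rw [hg0' z _ _ _ hθ.1 hu, mul_zero, norm_zero]
        exact hbd0
      · push Not at hu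
        obtain ⟨hu, hta⟩ := hu
        rw [abs_of_pos ht] at hta
        have e1 : f₁ a.1 = C' := indicator_of_mem (mem_closedBall_zero_iff.mpr hu) _
        have e3 : f₃ a.2.2 = a.2.2 ^ a₀ + a.2.2 ^ b₀ := 
          indicator_of_mem (show a.2.2 ∈ Ioc (0 : ℝ) R' from ⟨ht, hta⟩) _
        have hgb : ‖g z a.1 a.2.1 a.2.2‖ ≤ C' := by
          refine le_trans (hC (z, a.1, a.2.1, a.2.2) ?_) (le_max_left _ _)
          exact ⟨Metric.ball_subset_closedBall hz, mem_closedBall_zero_iff.mpr hu, hθ,
            ht.le, hta⟩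
        have hpow : ‖(a.2.2 : ℂ) ^ (z + 2 * m)‖ ≤ a.2.2 ^ a₀ + a.2.2 ^ b₀ := by
          rw [Complex.norm_cpow_eq_rpow_re_of_pos ht]
          have hzre : (z + 2 * (m : ℂ)).re = z.re + 2 * m := by simp
          rw [hzre]
          have hr := abs_lt.mp (hre z hz)
          rcases le_total a.2.2 1 with h1 | h1
          · have : a.2.2 ^ (z.re + 2 * m) ≤ a.2.2 ^ a₀ :=
              Real.rpow_le_rpow_of_exponent_ge ht h1 (by rw [ha₀]; linarith [hr.1])
            have h2 : 0 ≤ a.2.2 ^ b₀ := Real.rpow_nonneg ht.le _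
            linarith
          · have : a.2.2 ^ (z.re + 2 * m) ≤ a.2.2 ^ b₀ :=
              Real.rpow_le_rpow_of_exponent_le h1 (by rw [hb₀]; linarith [hr.2])
            have h2 : 0 ≤ a.2.2 ^ a₀ := Real.rpow_nonneg ht.le _
            linarith
        rw [norm_mul, hbd]
        simp only
        rw [e1, e3, one_mul, mul_comm C']
        exact mul_le_mul hpow hgb (norm_nonneg _) (le_trans (norm_nonneg _) hpow)
    · rw [Ph, indicator_of_notMem ha, norm_zero]
      exact hbd0
  -- measurability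
  have hmeas : ∀ z ∈ O, AEStronglyMeasurable (fun a => Ph m g a z) μ := by
    intro z _
    have : (fun a => Ph m g a z) =
        (SS m).indicator fun a => (a.2.2 : ℂ) ^ (z + 2 * m) * g z a.1 a.2.1 a.2.2 := rfl
    rw [this, aestronglyMeasurable_indicator_iff (measurableSet_SS m)]
    apply ContinuousOn.aestronglyMeasurable _ (measurableSet_SS m)
    apply ContinuousOn.mul
    · intro a ha
      have ha2 : a.2.2 ≠ 0 := ha.2.ne'
      have h1 : ContinuousAt (fun t : ℝ => (t : ℂ) ^ (z + 2 * m)) a.2.2 :=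
        Complex.continuousAt_ofReal_cpow_const _ _ (Or.inr ha2)
      have h2 : ContinuousAt (fun a : E m × E m × ℝ => a.2.2) a := by fun_prop
      exact (ContinuousAt.comp (f := fun a : E m × E m × ℝ => a.2.2) h1 h2).continuousWithinAt
    · have h2 : Continuous fun a : E m × E m × ℝ => ((z, a) : ℂ × E m × E m × ℝ) := by fun_prop
      exact hg.comp h2.continuousOn fun a ha => ne_zero_of_Ann ha.1
  -- holomorphy
  have hhol : ∀ a, DifferentiableOn ℂ (Ph m g a) O := by
    intro a z _
    apply DifferentiableAt.differentiableWithinAt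
    by_cases ha : a ∈ SS m
    · have : Ph m g a = fun z : ℂ => (a.2.2 : ℂ) ^ (z + 2 * m) * g z a.1 a.2.1 a.2.2 := by
        funext z
        rw [Ph, indicator_of_mem ha]
      rw [this]
      apply DifferentiableAt.mul
      · apply DifferentiableAt.const_cpow (by fun_prop)
        left
        exact_mod_cast ha.2.ne'
      · exact (hgz _ _ _ (ne_zero_of_Ann ha.1)).differentiableAt
    · have : Ph m g a = fun _ => 0 := by
        funext z
        rw [Ph, indicator_of_notMem ha]
      rw [this]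
      exact differentiableAt_const _
  have hmain := Pool.Agent.HP.differentiableOn_integral μ (Ph m g) O hOo hmeas hhol bd hint hle
  have hz₀O : z₀ ∈ O := Metric.mem_ball_self hδ
  apply DifferentiableAt.differentiableWithinAt
  have hcongr : ∀ z ∈ O, (∫ u : E m, ∫ θ in Ann m, ∫ t in Ioi (0 : ℝ),
      (t : ℂ) ^ (z + 2 * m) * g z u θ t) = ∫ a, Ph m g a z ∂μ := by
    intro z hz
    have hI : Integrable (fun a => Ph m g a z) μ :=
      hint.mono' (hmeas z hz) (Filter.Eventually.of_forall fun a => hle a z hz)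
    rw [hμ, integral_prod _ hI]
    apply integral_congr_ae
    filter_upwards [hI.prod_right_ae] with u hu
    rw [integral_prod _ hu]
    refine setIntegral_congr_fun (isCompact_Ann m).isClosed.measurableSet fun θ hθ => ?_
    refine setIntegral_congr_fun measurableSet_Ioi fun t ht => ?_
    rw [Ph, indicator_of_mem (show (u, θ, t) ∈ SS m from ⟨hθ, ht⟩)]
  have h1 : DifferentiableOn ℂ (fun z : ℂ => ∫ u : E m, ∫ θ in Ann m, ∫ t in Ioi (0 : ℝ),
      (t : ℂ) ^ (z + 2 * m) * g z u θ t) O := hmain.congr hcongr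
  exact (h1 z₀ hz₀O).differentiableAt (hOo.mem_nhds hz₀O)

end Pool.Agent.K3h24.MI
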